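import Pool.Agent.H14R2.RD.Defs

/-! Task MU of helper14 (helper155). -/

namespace RC14
open scoped InnerProductSpace
open Finset

variable {G : Type*} [Group G] [Fintype G]
variable {V : Type*} [NormedAddCommGroup V] [InnerProductSpace ℂ V]

namespace MU

lemma cj_cj (ρ : G →* (V ≃ₗᵢ[ℂ] V)) (E : Module.End ℂ V) (g z : G) :
    cj ρ (cj ρ E g) z = cj ρ E (z * g) := by
  simp only [cj, op_mul, mul_inv_rev, mul_assoc]

lemma cj_sum (ρ : G →* (V ≃ₗᵢ[ℂ] V)) (E : Module.End ℂ V) (μ : G → ℝ) (z : G) :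
    cj ρ (∑ g, (μ g : ℂ) • cj ρ E g) z = ∑ h, (μ (z⁻¹ * h) : ℂ) • cj ρ E h := by
  have h1 : cj ρ (∑ g, (μ g : ℂ) • cj ρ E g) z = ∑ g, (μ g : ℂ) • cj ρ E (z * g) := by
    have : cj ρ (∑ g, (μ g : ℂ) • cj ρ E g) z = ∑ g, (μ g : ℂ) • cj ρ (cj ρ E g) z := by
      simp only [cj, Finset.mul_sum, Finset.sum_mul, mul_smul_comm, smul_mul_assoc]
    rw [this]
    exact Finset.sum_congr rfl fun g _ => by rw [cj_cj]
  rw [h1]
  refine Fintype.sum_equiv (Equiv.mulLeft z) _ _ fun g => ?_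
  simp

lemma op_sum (ρ : G →* (V ≃ₗᵢ[ℂ] V)) (μ : G → ℝ) (z : G) :
    ∑ h, (μ (z⁻¹ * h) : ℂ) • op ρ h⁻¹ = (∑ g, (μ g : ℂ) • op ρ g⁻¹) * op ρ z⁻¹ := by
  rw [Finset.sum_mul]
  symm
  refine Fintype.sum_equiv (Equiv.mulLeft z) _ _ fun g => ?_
  simp [op_mul]

/-- the convolution -/
noncomputable def nu {q : ℕ} (z : Fin q → G) (μ : G → ℝ) (h : G) : ℝ :=
  (1 / (2 * (q : ℝ))) * ∑ i, (μ ((z i)⁻¹ * h) + μ (z i * h))

lemma step (ρ : G →* (V ≃ₗᵢ[ℂ] V)) (q : ℕ) (hq : 1 ≤ q) (z : Fin q → G) (μ : G → ℝ)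
    (h0 : ∀ g, 0 ≤ μ g) (h1 : ∑ g, μ g = 1) :
    (∀ g, 0 ≤ nu z μ g) ∧ ∑ g, nu z μ g = 1 ∧
      (∀ E : Module.End ℂ V, PS ρ z (∑ g, (μ g : ℂ) • cj ρ E g) =
        ∑ g, (nu z μ g : ℂ) • cj ρ E g) ∧
      ∑ g, (nu z μ g : ℂ) • op ρ g⁻¹ = (∑ g, (μ g : ℂ) • op ρ g⁻¹) * TQ ρ z := by
  refine ⟨?_, ?_, ?_, ?_⟩
  · intro g
    unfold nu
    refine mul_nonneg (by positivity) (Finset.sum_nonneg fun i _ => add_nonneg (h0 _) (h0 _))
  · unfold nu
    rw [← Finset.mul_sum, Finset.sum_comm]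
    have : ∀ i : Fin q, ∑ g, (μ ((z i)⁻¹ * g) + μ (z i * g)) = 2 := by
      intro i
      rw [Finset.sum_add_distrib]
      have e1 : ∑ g, μ ((z i)⁻¹ * g) = 1 := by
        rw [← h1]
        exact Fintype.sum_equiv (Equiv.mulLeft (z i)⁻¹) _ _ fun g => rfl
      have e2 : ∑ g, μ (z i * g) = 1 := by
        rw [← h1]
        exact Fintype.sum_equiv (Equiv.mulLeft (z i)) _ _ fun g => rfl
      rw [e1, e2]; norm_num
    rw [Finset.sum_congr rfl fun i _ => this i]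
    have hq' : (q : ℝ) ≠ 0 := by positivity
    simp
    field_simp
  · intro E
    unfold PS
    have e1 : ∀ i : Fin q, cj ρ (∑ g, (μ g : ℂ) • cj ρ E g) (z i) +
        cj ρ (∑ g, (μ g : ℂ) • cj ρ E g) (z i)⁻¹ =
        ∑ h, ((μ ((z i)⁻¹ * h) + μ (z i * h) : ℝ) : ℂ) • cj ρ E h := by
      intro i
      rw [cj_sum, cj_sum, ← Finset.sum_add_distrib]
      refine Finset.sum_congr rfl fun h _ => ?_
      rw [inv_inv, ← add_smul]
      push_cast
      rfl
    rw [Finset.sum_congr rfl fun i _ => e1 i, Finset.sum_comm, Finset.smul_sum]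
    refine Finset.sum_congr rfl fun h _ => ?_
    rw [← Finset.sum_smul, smul_smul]
    congr 1
    unfold nu
    push_cast
    rfl
  · unfold TQ
    rw [mul_smul_comm, Finset.mul_sum]
    have e1 : ∀ i : Fin q, (∑ g, (μ g : ℂ) • op ρ g⁻¹) * (op ρ (z i) + op ρ (z i)⁻¹) =
        ∑ h, ((μ ((z i)⁻¹ * h) + μ (z i * h) : ℝ) : ℂ) • op ρ h⁻¹ := by
      intro i
      have a1 := op_sum ρ μ (z i)
      have a2 := op_sum ρ μ (z i)⁻¹
      rw [inv_inv] at a2
      rw [mul_add, ← a1, ← a2, add_comm, ← Finset.sum_add_distrib]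
      refine Finset.sum_congr rfl fun h _ => ?_
      rw [← add_smul]
      push_cast
      rfl
    rw [Finset.sum_congr rfl fun i _ => e1 i, Finset.sum_comm, Finset.smul_sum]
    refine Finset.sum_congr rfl fun h _ => ?_
    rw [← Finset.sum_smul, smul_smul]
    congr 1
    unfold nu
    push_cast
    rfl

end MU

/-- the tree is an average over a probability measure `μ` on the group; the corresponding average
of the inverses is the product of the squares of the `TQ` -/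
theorem MU (ρ : G →* (V ≃ₗᵢ[ℂ] V)) (q R : ℕ) (hq : 1 ≤ q) (z : Fin R → Fin q → G) :
    ∃ μ : G → ℝ, (∀ g, 0 ≤ μ g) ∧ ∑ g, μ g = 1 ∧
      (∀ E : Module.End ℂ V, AA ρ E R z = ∑ g, (μ g : ℂ) • cj ρ E g) ∧
      ∑ g, (μ g : ℂ) • op ρ g⁻¹ = (List.ofFn fun s => TQ ρ (z s) * TQ ρ (z s)).prod := by
  classical
  induction R with
  | zero =>
    refine ⟨fun g => if g = 1 then 1 else 0, ?_, ?_, ?_, ?_⟩
    · intro g
      dsimp only
      split_ifs <;> norm_num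
    · simp
    · intro E
      simp only [AA]
      have : ∀ g : G, (((if g = 1 then 1 else 0 : ℝ)) : ℂ) • cj ρ E g =
          if g = 1 then cj ρ E g else 0 := by
        intro g
        split_ifs <;> simp
      rw [Finset.sum_congr rfl fun g _ => this g]
      simp [cj, op_one]
    · have : ∀ g : G, (((if g = 1 then 1 else 0 : ℝ)) : ℂ) • op ρ g⁻¹ =
          if g = 1 then op ρ g⁻¹ else 0 := by
        intro g
        split_ifs <;> simp
      rw [Finset.sum_congr rfl fun g _ => this g]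
      simp [op_one]
  | succ R ih =>
    obtain ⟨μ, h0, h1, h2, h3⟩ := ih (fun i => z i.castSucc)
    obtain ⟨a0, a1, a2, a3⟩ := MU.step ρ q hq (z (Fin.last R)) μ h0 h1
    obtain ⟨b0, b1, b2, b3⟩ := MU.step ρ q hq (z (Fin.last R)) _ a0 a1
    refine ⟨_, b0, b1, ?_, ?_⟩
    · intro E
      simp only [AA]
      rw [h2 E, a2 E, b2 E]
    · rw [b3, a3, h3, List.ofFn_succ', List.concat_eq_append, List.prod_append]
      simp [mul_assoc]

end RC14
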